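import Mathlib

/-! Fourier step: a covering vector gives all subset sums. -/

set_option autoImplicit false

namespace Pool.Agent.FB9763h88

open Finset

theorem sum_char_zero {p : ℕ} [Fact p.Prime] {n : ℕ} (z : Fin n → ZMod p) (hz : z ≠ 0) :
    ∑ ξ : Fin n → ZMod p, ZMod.stdAddChar (dotProduct ξ z) = (0 : ℂ) := by
  classical
  obtain ⟨i, hi⟩ : ∃ i, z i ≠ 0 := by
    by_contra hcon
    push Not at hcon
    exact hz (funext hcon)
  set w : Fin n → ZMod p := Pi.single i (z i)⁻¹ with hw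
  have hwz : dotProduct w z = 1 := by
    rw [hw, single_dotProduct, inv_mul_cancel₀ hi]
  have h1 : ∑ ξ : Fin n → ZMod p, ZMod.stdAddChar (dotProduct ξ z) =
      ∑ ξ : Fin n → ZMod p, (ZMod.stdAddChar (dotProduct (ξ + w) z) : ℂ) := by
    exact (Fintype.sum_equiv (Equiv.addRight w)
      (fun ξ => (ZMod.stdAddChar (dotProduct (ξ + w) z) : ℂ))
      (fun ξ => (ZMod.stdAddChar (dotProduct ξ z) : ℂ)) (fun ξ => rfl)).symm
  have h2 : ∑ ξ : Fin n → ZMod p, (ZMod.stdAddChar (dotProduct (ξ + w) z) : ℂ) =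
      (∑ ξ : Fin n → ZMod p, (ZMod.stdAddChar (dotProduct ξ z) : ℂ)) *
        ZMod.stdAddChar (1 : ZMod p) := by
    rw [Finset.sum_mul]
    apply Finset.sum_congr rfl
    intro ξ _
    rw [add_dotProduct, hwz, AddChar.map_add_eq_mul]
  have h3 : (ZMod.stdAddChar (1 : ZMod p) : ℂ) ≠ 1 := by
    intro h
    have h4 : (ZMod.stdAddChar (1 : ZMod p) : ℂ) = ZMod.stdAddChar (0 : ZMod p) := by
      rw [h, AddChar.map_zero_eq_one]
    exact one_ne_zero (ZMod.injective_stdAddChar h4)
  rw [h2] at h1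
  have h5 : (∑ ξ : Fin n → ZMod p, (ZMod.stdAddChar (dotProduct ξ z) : ℂ)) *
      (ZMod.stdAddChar (1 : ZMod p) - 1) = 0 := by
    rw [mul_sub, mul_one, ← h1, sub_self]
  rcases mul_eq_zero.1 h5 with h6 | h6
  · exact h6
  · exact absurd (sub_eq_zero.1 h6) h3

/-- A covering vector gives all subset sums. -/
theorem subset_sum_of_cov {p : ℕ} [Fact p.Prime] {n : ℕ} {E : Type*} [Fintype E] [DecidableEq E]
    (v : E → Fin n → ZMod p) (a : E → ZMod p) (ha : ∀ e, a e ≠ 0)
    (hcov : ∀ ξ : Fin n → ZMod p, ξ ≠ 0 → ∃ e, dotProduct ξ (v e) = a e)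
    (y : Fin n → ZMod p) : ∃ S : Finset E, ∑ e ∈ S, v e = y := by
  classical
  by_contra hcon
  push Not at hcon
  have hzero : ∑ ξ : Fin n → ZMod p, (ZMod.stdAddChar (- dotProduct ξ y) : ℂ) *
      ∏ e : E, ((ZMod.stdAddChar (dotProduct ξ (v e)) : ℂ) + (- ZMod.stdAddChar (a e))) = 0 := by
    have h1 : ∀ ξ : Fin n → ZMod p, (ZMod.stdAddChar (- dotProduct ξ y) : ℂ) *
      ∏ e : E, ((ZMod.stdAddChar (dotProduct ξ (v e)) : ℂ) + (- ZMod.stdAddChar (a e))) =
      ∑ S ∈ (univ : Finset E).powerset, (∏ e ∈ univ \ S, (- (ZMod.stdAddChar (a e) : ℂ))) *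
        ZMod.stdAddChar (dotProduct ξ (∑ e ∈ S, v e - y)) := by
      intro ξ
      rw [Finset.prod_add, Finset.mul_sum]
      apply Finset.sum_congr rfl
      intro S _
      have h2 : (ZMod.stdAddChar (dotProduct ξ (∑ e ∈ S, v e - y)) : ℂ) =
          (∏ e ∈ S, (ZMod.stdAddChar (dotProduct ξ (v e)) : ℂ)) *
            ZMod.stdAddChar (- dotProduct ξ y) := by
        rw [dotProduct_sub, sub_eq_add_neg, AddChar.map_add_eq_mul, dotProduct_sum]
        congr 1
        clear hcon
        induction S using Finset.induction_on with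
        | empty => simp
        | insert e S he ih =>
          rw [Finset.sum_insert he, Finset.prod_insert he, AddChar.map_add_eq_mul, ih (by simp)]
      rw [h2]; ring
    rw [Finset.sum_congr rfl (fun ξ _ => h1 ξ), Finset.sum_comm]
    apply Finset.sum_eq_zero
    intro S _
    rw [← Finset.mul_sum, sum_char_zero, mul_zero]
    exact sub_ne_zero.2 (hcon S)
  have hone : ∑ ξ : Fin n → ZMod p, (ZMod.stdAddChar (- dotProduct ξ y) : ℂ) *
      ∏ e : E, ((ZMod.stdAddChar (dotProduct ξ (v e)) : ℂ) + (- ZMod.stdAddChar (a e))) =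
      ∏ e : E, ((1 : ℂ) + (- ZMod.stdAddChar (a e))) := by
    rw [Finset.sum_eq_single (0 : Fin n → ZMod p)]
    · simp
    · intro ξ _ hξ
      obtain ⟨e, he⟩ := hcov ξ hξ
      rw [Finset.prod_eq_zero (Finset.mem_univ e), mul_zero]
      rw [he]; ring
    · intro h; exact absurd (Finset.mem_univ _) h
  rw [hone] at hzero
  obtain ⟨e, _, he⟩ := Finset.prod_eq_zero_iff.1 hzero
  have h4 : (ZMod.stdAddChar (0 : ZMod p) : ℂ) = ZMod.stdAddChar (a e) := by
    rw [AddChar.map_zero_eq_one]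
    linear_combination he
  exact ha e (ZMod.injective_stdAddChar h4).symm

/-- The cubes, from subset sums of the columns. -/
theorem cubes_of_subset_sum {p : ℕ} [Fact p.Prime] {n C : ℕ}
    (T : Fin C → ((Fin n → ZMod p) ≃ₗ[ZMod p] (Fin n → ZMod p)))
    (y : Fin n → ZMod p)
    (h : ∃ S : Finset (Fin C × Fin n), ∑ e ∈ S, T e.1 (Pi.single e.2 1) = y) :
    ∃ x : Fin C → Fin n → ZMod p,
      (∀ j i, x j i = 0 ∨ x j i = 1) ∧ ∑ j, T j (x j) = y := by
  classical
  obtain ⟨S, hS⟩ := h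
  refine ⟨fun j i => if (j, i) ∈ S then 1 else 0, ?_, ?_⟩
  · intro j i
    by_cases hh : (j, i) ∈ S
    · right; simp [hh]
    · left; simp [hh]
  · rw [← hS]
    have h1 : ∀ j : Fin C, T j (fun i => if (j, i) ∈ S then (1 : ZMod p) else 0) =
        ∑ i : Fin n, if (j, i) ∈ S then T j (Pi.single i 1) else 0 := by
      intro j
      have h2 : (fun i => if (j, i) ∈ S then (1 : ZMod p) else 0) =
          ∑ i : Fin n, (if (j, i) ∈ S then (Pi.single i (1 : ZMod p) : Fin n → ZMod p) else 0) := by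
        funext k
        rw [Finset.sum_apply, Finset.sum_eq_single k]
        · by_cases hh : (j, k) ∈ S
          · simp [hh]
          · simp [hh]
        · intro b _ hb
          by_cases hh : (j, b) ∈ S
          · simp [hh, Pi.single_apply, hb.symm]
          · simp [hh]
        · intro hk; exact absurd (Finset.mem_univ _) hk
      rw [h2, map_sum]
      apply Finset.sum_congr rfl
      intro i _
      by_cases hh : (j, i) ∈ S
      · simp [hh]
      · simp [hh]
    rw [Finset.sum_congr rfl (fun j _ => h1 j)]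
    rw [← Finset.sum_product' (f := fun j i => if (j, i) ∈ S then T j (Pi.single i 1) else 0)]
    rw [← Finset.sum_filter]
    apply Finset.sum_congr _ (fun _ _ => rfl)
    ext e
    simp

end Pool.Agent.FB9763h88
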