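import Pool.Agent.W_fb9763_h88.Cover

/-! Reduction of the additive basis theorem to one punctured code. -/

set_option autoImplicit false

namespace Pool.Agent.FB9763h88

open Finset

section
variable {E K : Type*} [Fintype E] [DecidableEq E] [Field K]

/-- the words of `L` supported in `S` -/
def Lr (L : Submodule K (E → K)) (S : Finset E) : Submodule K (E → K) where
  carrier := {h | h ∈ L ∧ ∀ e, e ∉ S → h e = 0}
  add_mem' := by
    intro a b ha hb
    exact ⟨L.add_mem ha.1 hb.1, fun e he => by simp [ha.2 e he, hb.2 e he]⟩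
  zero_mem' := ⟨L.zero_mem, fun e _ => rfl⟩
  smul_mem' := by
    intro c a ha
    exact ⟨L.smul_mem c ha.1, fun e he => by simp [ha.2 e he]⟩

theorem mem_Lr {L : Submodule K (E → K)} {S : Finset E} {h : E → K} :
    h ∈ Lr L S ↔ h ∈ L ∧ ∀ e, e ∉ S → h e = 0 := Iff.rfl

theorem Lr_le (L : Submodule K (E → K)) (S : Finset E) : Lr L S ≤ L := fun _ h => h.1

/-- the code punctured at `T` has a covering vector -/
def CovT (L : Submodule K (E → K)) (T : Finset E) : Prop :=
  ∃ a : E → K, (∀ e, a e ≠ 0) ∧ ∀ h ∈ L, (∃ e, e ∉ T ∧ h e ≠ 0) → ∃ e, e ∉ T ∧ h e = a e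

/-- density of all restricted codes -/
def Dens (C : ℕ) (L : Submodule K (E → K)) : Prop :=
  ∀ S : Finset E, C * Module.finrank K (Lr L S) ≤ S.card

theorem dens_Lr {C : ℕ} {L : Submodule K (E → K)} (h : Dens C L) (T : Finset E) :
    Dens C (Lr L T) := by
  intro S
  refine le_trans (Nat.mul_le_mul_left C ?_) (h S)
  apply Submodule.finrank_mono
  intro g hg
  exact ⟨hg.1.1, hg.2⟩

theorem cov_of_step (C : ℕ)
    (hstep : ∀ L : Submodule K (E → K), Dens C L → L ≠ ⊥ → ∃ T : Finset E, Lr L T ≠ L ∧ CovT L T)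
    (L : Submodule K (E → K)) (hL : Dens C L) :
    ∃ a : E → K, (∀ e, a e ≠ 0) ∧ ∀ h ∈ L, h ≠ 0 → ∃ e, h e = a e := by
  classical
  obtain ⟨n, hn⟩ : ∃ n, Module.finrank K L = n := ⟨_, rfl⟩
  induction n using Nat.strong_induction_on generalizing L with
  | _ n ih =>
  by_cases h0 : L = ⊥
  · refine ⟨fun _ => 1, fun _ => one_ne_zero, ?_⟩
    intro h hh hne
    rw [h0, Submodule.mem_bot] at hh
    exact absurd hh hne
  · obtain ⟨T, hT, a, ha, hcov⟩ := hstep L hL h0
    have hlt : Module.finrank K (Lr L T) < n := by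
      rw [← hn]
      exact Submodule.finrank_lt_finrank_of_lt (lt_of_le_of_ne (Lr_le L T) hT)
    obtain ⟨b, hb, hbc⟩ := ih _ hlt (Lr L T) (dens_Lr hL T) rfl
    refine ⟨fun e => if e ∈ T then b e else a e, ?_, ?_⟩
    · intro e
      by_cases he : e ∈ T
      · simp [he, hb e]
      · simp [he, ha e]
    · intro h hh hne
      by_cases hex : ∃ e, e ∉ T ∧ h e ≠ 0
      · obtain ⟨e, he, hea⟩ := hcov h hh hex
        exact ⟨e, by simp [he, hea]⟩
      · push Not at hex
        obtain ⟨e, he⟩ := hbc h ⟨hh, hex⟩ hne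
        have heT : e ∈ T := by
          by_contra hc
          rw [hex e hc] at he
          exact hb e he.symm
        exact ⟨e, by simp [heT, he]⟩
end

section
variable {p : ℕ} [Fact p.Prime]

/-- the code of all functionals on a system of vectors -/
def codeMap {n : ℕ} {E : Type*} (v : E → Fin n → ZMod p) :
    (Fin n → ZMod p) →ₗ[ZMod p] (E → ZMod p) where
  toFun ξ := fun e => dotProduct ξ (v e)
  map_add' a b := by funext e; simp [add_dotProduct]
  map_smul' c a := by funext e; simp [smul_dotProduct]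

theorem codeMap_apply {n : ℕ} {E : Type*} (v : E → Fin n → ZMod p) (ξ : Fin n → ZMod p) (e : E) :
    codeMap v ξ e = dotProduct ξ (v e) := rfl

/-- functional vanishing on the images of the unit vectors vanishes -/
theorem eq_zero_of_basis {n : ℕ} (T : (Fin n → ZMod p) ≃ₗ[ZMod p] (Fin n → ZMod p))
    (ξ : Fin n → ZMod p) (h : ∀ i, dotProduct ξ (T (Pi.single i 1)) = 0) : ξ = 0 := by
  classical
  have h1 : ∀ z : Fin n → ZMod p, dotProduct ξ (T z) = 0 := by
    intro z
    have hz : z = ∑ i, z i • (Pi.single i (1 : ZMod p) : Fin n → ZMod p) := by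
      funext k
      rw [Finset.sum_apply, Finset.sum_eq_single k]
      · simp
      · intro b _ hb; simp [hb.symm]
      · intro hk; exact absurd (Finset.mem_univ _) hk
    rw [hz, map_sum, dotProduct_sum]
    apply Finset.sum_eq_zero
    intro i _
    rw [map_smul, dotProduct_smul, h i, smul_zero]
  funext i
  have h2 := h1 (T.symm (Pi.single i 1))
  rw [LinearEquiv.apply_symm_apply] at h2
  simpa using h2

theorem dens_code {n C : ℕ} (hC : 0 < C)
    (T : Fin C → ((Fin n → ZMod p) ≃ₗ[ZMod p] (Fin n → ZMod p))) :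
    Dens C (LinearMap.range (codeMap (fun e : Fin C × Fin n => T e.1 (Pi.single e.2 1)))) := by
  classical
  intro S
  set φ := codeMap (fun e : Fin C × Fin n => T e.1 (Pi.single e.2 1)) with hφ
  -- the functionals
  set W : Submodule (ZMod p) (Fin n → ZMod p) := (Lr (LinearMap.range φ) S).comap φ with hW
  have hWr : Module.finrank (ZMod p) (Lr (LinearMap.range φ) S) ≤ Module.finrank (ZMod p) W := by
    have hmap : W.map φ = Lr (LinearMap.range φ) S := by
      rw [hW, Submodule.map_comap_eq]
      exact inf_eq_right.2 (Lr_le _ _)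
    rw [← hmap]
    exact Submodule.finrank_map_le φ W
  -- one block
  have hblock : ∀ j : Fin C, Module.finrank (ZMod p) W ≤ (S.filter (fun e => e.1 = j)).card := by
    intro j
    let ψ : W →ₗ[ZMod p] ({e // e ∈ S.filter (fun e => e.1 = j)} → ZMod p) :=
      { toFun := fun ξ e => φ ξ.1 e.1
        map_add' := by intro a b; funext e; simp
        map_smul' := by intro c a; funext e; simp }
    have hinj : Function.Injective ψ := by
      rw [← LinearMap.ker_eq_bot, LinearMap.ker_eq_bot']
      intro ξ hξ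
      apply Subtype.ext
      apply eq_zero_of_basis (T j)
      intro i
      by_cases hmem : (j, i) ∈ S
      · have := congrFun hξ ⟨(j, i), by simp [hmem]⟩
        exact this
      · have h1 : φ ξ.1 ∈ Lr (LinearMap.range φ) S := ξ.2
        exact h1.2 (j, i) hmem
    have := LinearMap.finrank_le_finrank_of_injective hinj
    rw [Module.finrank_fintype_fun_eq_card, Fintype.card_coe] at this
    exact this
  have hsum : ∑ j : Fin C, (S.filter (fun e => e.1 = j)).card = S.card := by
    rw [← Finset.card_eq_sum_card_fiberwise]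
    intro e _
    exact Finset.mem_coe.2 (Finset.mem_univ _)
  have hle : C * Module.finrank (ZMod p) W ≤ S.card := by
    rw [← hsum]
    calc C * Module.finrank (ZMod p) W = ∑ _j : Fin C, Module.finrank (ZMod p) W := by simp
      _ ≤ _ := Finset.sum_le_sum (fun j _ => hblock j)
  exact le_trans (Nat.mul_le_mul_left C hWr) hle

/-- The whole reduction: one covered punctured code in every dense code gives the theorem. -/
theorem cubes_of_step (C : ℕ) (hC : 0 < C)
    (hstep : ∀ n : ℕ, ∀ L : Submodule (ZMod p) (Fin C × Fin n → ZMod p), Dens C L → L ≠ ⊥ →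
      ∃ T : Finset (Fin C × Fin n), Lr L T ≠ L ∧ CovT L T)
    (n : ℕ) (T : Fin C → ((Fin n → ZMod p) ≃ₗ[ZMod p] (Fin n → ZMod p)))
    (y : Fin n → ZMod p) :
    ∃ x : Fin C → Fin n → ZMod p, (∀ j i, x j i = 0 ∨ x j i = 1) ∧ ∑ j, T j (x j) = y := by
  classical
  apply cubes_of_subset_sum
  obtain ⟨a, ha, hcov⟩ := cov_of_step C (hstep n) _ (dens_code hC T)
  apply subset_sum_of_cov (fun e : Fin C × Fin n => T e.1 (Pi.single e.2 1)) a ha
  intro ξ hξ
  obtain ⟨e, he⟩ := hcov (codeMap (fun e : Fin C × Fin n => T e.1 (Pi.single e.2 1)) ξ) ⟨ξ, rfl⟩ (by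
    intro h0
    apply hξ
    apply eq_zero_of_basis (T ⟨0, hC⟩)
    intro i
    exact congrFun h0 (⟨0, hC⟩, i))
  exact ⟨e, he⟩
end

end Pool.Agent.FB9763h88
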