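import Mathlib

/-! Rosenfeld counting: a family of words with exponentially small weight through every
coordinate is covered by one vector without zeros. -/

set_option autoImplicit false

namespace Pool.Agent.FB9763h88

open Finset

variable {E K : Type*} [Fintype E] [DecidableEq E] [Field K] [Fintype K] [DecidableEq K]

/-- support -/
def sp (h : E → K) : Finset E := univ.filter (fun e => h e ≠ 0)

theorem mem_sp {h : E → K} {e : E} : e ∈ sp h ↔ h e ≠ 0 := by simp [sp]

/-- the vectors supported exactly on `S` which meet all words of `H` inside `S` -/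
def Ns (H : Finset (E → K)) (S : Finset E) : Finset (E → K) :=
  univ.filter (fun a => (∀ e, e ∈ S → a e ≠ 0) ∧ (∀ e, e ∉ S → a e = 0) ∧
    ∀ h ∈ H, sp h ⊆ S → ∃ e, e ∈ sp h ∧ h e = a e)

theorem mem_Ns {H : Finset (E → K)} {S : Finset E} {a : E → K} :
    a ∈ Ns H S ↔ (∀ e, e ∈ S → a e ≠ 0) ∧ (∀ e, e ∉ S → a e = 0) ∧
    ∀ h ∈ H, sp h ⊆ S → ∃ e, e ∈ sp h ∧ h e = a e := by simp [Ns]

/-- the bad extensions for one word -/
def Bd (H : Finset (E → K)) (U : Finset E) (h : E → K) : Finset (E → K) :=
  univ.filter (fun a => (∀ e, e ∈ U → a e ≠ 0) ∧ (∀ e, e ∉ U → a e = 0) ∧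
    (∀ e, e ∈ sp h → a e ≠ h e) ∧
    ∀ g ∈ H, sp g ⊆ U \ sp h → ∃ e, e ∈ sp g ∧ g e = a e)

theorem card_Bd_le (H : Finset (E → K)) (U : Finset E) (h : E → K) (hU : sp h ⊆ U) :
    (Bd H U h).card ≤ (Ns H (U \ sp h)).card * (Fintype.card K - 2) ^ (sp h).card := by
  classical
  set P : Finset (E → K) :=
    Fintype.piFinset (fun f => if f ∈ sp h then (univ \ {0, h f} : Finset K) else {0}) with hP
  have hPc : P.card = (Fintype.card K - 2) ^ (sp h).card := by
    rw [hP, Fintype.card_piFinset]
    rw [← Finset.prod_subset (Finset.subset_univ (sp h))]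
    · rw [← Finset.prod_const]
      apply Finset.prod_congr rfl
      intro f hf
      rw [if_pos hf, Finset.card_sdiff_of_subset (Finset.subset_univ _), Finset.card_univ]
      rw [Finset.card_pair]
      exact fun hh => (mem_sp.1 hf) hh.symm
    · intro f _ hf
      rw [if_neg hf]; simp
  rw [← hPc, ← Finset.card_product]
  apply Finset.card_le_card_of_injOn
    (fun a => ((fun e => if e ∈ sp h then 0 else a e), (fun e => if e ∈ sp h then a e else 0)))
  · intro a ha
    rw [Finset.mem_coe] at ha
    simp only [Bd, mem_filter, mem_univ, true_and] at ha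
    obtain ⟨h1, h2, h3, h4⟩ := ha
    rw [Finset.mem_coe, Finset.mem_product]
    constructor
    · rw [mem_Ns]
      refine ⟨?_, ?_, ?_⟩
      · intro e he
        rw [mem_sdiff] at he
        simp only [if_neg he.2]
        exact h1 e he.1
      · intro e he
        rw [mem_sdiff] at he
        by_cases hh : e ∈ sp h
        · simp only [if_pos hh]
        · simp only [if_neg hh]
          exact h2 e (fun h5 => he ⟨h5, hh⟩)
      · intro g hg hgs
        obtain ⟨e, he, hge⟩ := h4 g hg hgs
        refine ⟨e, he, ?_⟩
        have := hgs he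
        rw [mem_sdiff] at this
        simp only [if_neg this.2]
        exact hge
    · rw [hP, Fintype.mem_piFinset]
      intro f
      by_cases hf : f ∈ sp h
      · simp only [if_pos hf]
        simp only [mem_sdiff, mem_univ, true_and, mem_insert, mem_singleton, not_or]
        exact ⟨h1 f (hU hf), h3 f hf⟩
      · simp only [if_neg hf]; simp
  · intro a _ b _ hab
    simp only [Prod.mk.injEq] at hab
    funext e
    have h1 := congrFun hab.1 e
    have h2 := congrFun hab.2 e
    by_cases he : e ∈ sp h
    · simpa [he] using h2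
    · simpa [he] using h1

theorem card_step (H : Finset (E → K)) (S : Finset E) (e : E) (he : e ∉ S) :
    (Fintype.card K - 1) * (Ns H S).card ≤ (Ns H (insert e S)).card +
      ∑ h ∈ H.filter (fun h => h e ≠ 0 ∧ sp h ⊆ insert e S),
        (Ns H (insert e S \ sp h)).card * (Fintype.card K - 2) ^ (sp h).card := by
  classical
  -- the extensions
  set X : Finset (E → K) := ((univ \ {0} : Finset K) ×ˢ Ns H S).image
    (fun q => Function.update q.2 e q.1) with hX
  have hXc : X.card = (Fintype.card K - 1) * (Ns H S).card := by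
    rw [hX, Finset.card_image_of_injOn, Finset.card_product,
      Finset.card_sdiff_of_subset (Finset.subset_univ _), Finset.card_univ, Finset.card_singleton]
    intro q hq r hr hqr
    rw [Finset.mem_coe, mem_product, mem_Ns] at hq hr
    have h1 : q.1 = r.1 := by
      have := congrFun hqr e
      simpa using this
    have h2 : q.2 = r.2 := by
      funext f
      by_cases hf : f = e
      · rw [hf, hq.2.2.1 e he, hr.2.2.1 e he]
      · have := congrFun hqr f
        simpa [Function.update_of_ne hf] using this
    exact Prod.ext h1 h2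
  have hsub : X ⊆ Ns H (insert e S) ∪
      (H.filter (fun h => h e ≠ 0 ∧ sp h ⊆ insert e S)).biUnion (fun h => Bd H (insert e S) h) := by
    intro b hb
    rw [hX, mem_image] at hb
    obtain ⟨q, hq, rfl⟩ := hb
    rw [mem_product, mem_Ns] at hq
    obtain ⟨hq0, hq1, hq2, hq3⟩ := hq
    have hq0' : q.1 ≠ 0 := by simpa using hq0
    have A1 : ∀ f, f ∈ insert e S → Function.update q.2 e q.1 f ≠ 0 := by
      intro f hf
      by_cases hfe : f = e
      · subst hfe; simpa using hq0'
      · rw [Function.update_of_ne hfe]
        exact hq1 f (Finset.mem_of_mem_insert_of_ne hf hfe)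
    have A2 : ∀ f, f ∉ insert e S → Function.update q.2 e q.1 f = 0 := by
      intro f hf
      rw [mem_insert, not_or] at hf
      rw [Function.update_of_ne hf.1]
      exact hq2 f hf.2
    have A3 : ∀ g ∈ H, sp g ⊆ S → ∃ f, f ∈ sp g ∧ g f = Function.update q.2 e q.1 f := by
      intro g hg hgs
      obtain ⟨f, hf, hgf⟩ := hq3 g hg hgs
      refine ⟨f, hf, ?_⟩
      rw [Function.update_of_ne]
      · exact hgf
      · rintro rfl
        exact he (hgs hf)
    rw [mem_union]
    by_cases hall : ∀ h ∈ H, sp h ⊆ insert e S → ∃ f, f ∈ sp h ∧ h f = Function.update q.2 e q.1 f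
    · left
      rw [mem_Ns]
      exact ⟨A1, A2, hall⟩
    · right
      push Not at hall
      obtain ⟨h, hH, hs, hne⟩ := hall
      have hee : h e ≠ 0 := by
        intro h0
        have : sp h ⊆ S := by
          intro f hf
          apply Finset.mem_of_mem_insert_of_ne (hs hf)
          rintro rfl
          exact (mem_sp.1 hf) h0
        obtain ⟨f, hf, hgf⟩ := A3 h hH this
        exact hne f hf hgf
      rw [mem_biUnion]
      refine ⟨h, ?_, ?_⟩
      · rw [mem_filter]; exact ⟨hH, hee, hs⟩
      · simp only [Bd, mem_filter, mem_univ, true_and]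
        refine ⟨A1, A2, fun f hf => (hne f hf).symm, ?_⟩
        intro g hg hgs
        apply A3 g hg
        intro f hf
        have := hgs hf
        rw [mem_sdiff] at this
        apply Finset.mem_of_mem_insert_of_ne this.1
        rintro rfl
        exact this.2 (mem_sp.2 hee)
  calc (Fintype.card K - 1) * (Ns H S).card = X.card := hXc.symm
    _ ≤ _ := Finset.card_le_card hsub
    _ ≤ _ := Finset.card_union_le _ _
    _ ≤ _ := by
      apply Nat.add_le_add_left
      refine le_trans Finset.card_biUnion_le ?_
      apply Finset.sum_le_sum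
      intro h hh
      rw [mem_filter] at hh
      exact card_Bd_le H _ h hh.2.2

/-- Rosenfeld counting. -/
theorem rosenfeld (H : Finset (E → K)) (h0 : ∀ h ∈ H, h ≠ 0) (x δ : ℝ) (hx : 0 < x)
    (hδ : 0 ≤ δ) (hδ1 : δ < 1)
    (hq : (Fintype.card K : ℝ) - 2 ≤ x * ((1 - δ) * ((Fintype.card K : ℝ) - 1)))
    (hsum : ∀ e : E, ∑ h ∈ H.filter (fun h => h e ≠ 0), x ^ (sp h).card ≤ δ) :
    ∃ a : E → K, (∀ e, a e ≠ 0) ∧ ∀ h ∈ H, ∃ e, h e ≠ 0 ∧ h e = a e := by
  classical
  have hK : 2 ≤ Fintype.card K := by
    have := Fintype.one_lt_card (α := K); omega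
  have hK1 : ((Fintype.card K - 1 : ℕ) : ℝ) = (Fintype.card K : ℝ) - 1 := by
    rw [Nat.cast_sub (by omega)]; simp
  have hK2 : ((Fintype.card K - 2 : ℕ) : ℝ) = (Fintype.card K : ℝ) - 2 := by
    rw [Nat.cast_sub (by omega)]; simp
  set γ : ℝ := (1 - δ) * ((Fintype.card K : ℝ) - 1) with hγ
  have hKr : (2 : ℝ) ≤ Fintype.card K := by exact_mod_cast hK
  have hγ0 : 0 < γ := by
    rw [hγ]; apply mul_pos <;> linarith
  -- main induction
  have key : ∀ n : ℕ, ∀ S : Finset E, S.card = n → ∀ e : E, e ∉ S →
      γ * ((Ns H S).card : ℝ) ≤ ((Ns H (insert e S)).card : ℝ) := by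
    intro n
    induction n using Nat.strong_induction_on with
    | _ n ih =>
    intro S hS e he
    -- growth below
    have grow : ∀ m : ℕ, ∀ U : Finset E, U.card = m → U ⊆ S → ∀ V : Finset E, V ⊆ U →
        γ ^ (U.card - V.card) * ((Ns H V).card : ℝ) ≤ ((Ns H U).card : ℝ) := by
      intro m
      induction m with
      | zero =>
        intro U hU _ V hV
        have h1 : U = ∅ := Finset.card_eq_zero.1 hU
        have h2 : V = ∅ := by rw [h1] at hV; exact Finset.subset_empty.1 hV
        rw [h1, h2]; simp
      | succ m ihm =>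
        intro U hU hUS V hV
        by_cases hVU : V = U
        · rw [hVU]; simp
        · obtain ⟨f, hfU, hfV⟩ := Finset.exists_of_ssubset (lt_of_le_of_ne hV hVU)
          have hc : (U.erase f).card = m := by rw [Finset.card_erase_of_mem hfU, hU]; simp
          have hV' : V ⊆ U.erase f := by
            intro g hg
            rw [mem_erase]
            exact ⟨by rintro rfl; exact hfV hg, hV hg⟩
          have h1 := ihm (U.erase f) hc ((Finset.erase_subset _ _).trans hUS) V hV'
          have hlt : m < n := by
            have := Finset.card_le_card hUS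
            omega
          have h2 := ih m hlt (U.erase f) hc f (Finset.notMem_erase f U)
          rw [Finset.insert_erase hfU] at h2
          have hle : V.card ≤ m := by rw [← hc]; exact Finset.card_le_card hV'
          have h3 : U.card - V.card = (U.erase f).card - V.card + 1 := by
            rw [hU, hc]; omega
          rw [h3, pow_succ]
          calc γ ^ ((U.erase f).card - V.card) * γ * ((Ns H V).card : ℝ)
              = γ * (γ ^ ((U.erase f).card - V.card) * ((Ns H V).card : ℝ)) := by ring
            _ ≤ γ * ((Ns H (U.erase f)).card : ℝ) := by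
              apply mul_le_mul_of_nonneg_left h1 hγ0.le
            _ ≤ _ := h2
    have hstep := card_step H S e he
    have hstep' : ((Fintype.card K : ℝ) - 1) * ((Ns H S).card : ℝ) ≤
        ((Ns H (insert e S)).card : ℝ) +
        ∑ h ∈ H.filter (fun h => h e ≠ 0 ∧ sp h ⊆ insert e S),
        ((Ns H (insert e S \ sp h)).card : ℝ) * ((Fintype.card K : ℝ) - 2) ^ (sp h).card := by
      have := (Nat.cast_le (α := ℝ)).2 hstep
      push_cast at this
      rw [hK1, hK2] at this
      exact this
    have hterm : ∀ h ∈ H.filter (fun h => h e ≠ 0 ∧ sp h ⊆ insert e S),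
        ((Ns H (insert e S \ sp h)).card : ℝ) * ((Fintype.card K : ℝ) - 2) ^ (sp h).card
        ≤ x ^ (sp h).card * (γ * ((Ns H S).card : ℝ)) := by
      intro h hh
      rw [mem_filter] at hh
      obtain ⟨hH, hee, hs⟩ := hh
      have hsub : insert e S \ sp h ⊆ S := by
        intro f hf
        rw [mem_sdiff] at hf
        apply Finset.mem_of_mem_insert_of_ne hf.1
        rintro rfl
        exact hf.2 (mem_sp.2 hee)
      have hg := grow S.card S rfl (Finset.Subset.refl _) _ hsub
      have hcard : (insert e S \ sp h).card + (sp h).card = S.card + 1 := by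
        rw [Finset.card_sdiff_of_subset hs, Finset.card_insert_of_notMem he]
        have := Finset.card_le_card hs
        rw [Finset.card_insert_of_notMem he] at this
        omega
      have hpos : 1 ≤ (sp h).card := Finset.card_pos.2 ⟨e, mem_sp.2 hee⟩
      have hexp : S.card - (insert e S \ sp h).card = (sp h).card - 1 := by omega
      rw [hexp] at hg
      have hpow : ((Fintype.card K : ℝ) - 2) ^ (sp h).card ≤ (x * γ) ^ (sp h).card := by
        apply pow_le_pow_left₀ (by linarith)
        exact hq
      calc ((Ns H (insert e S \ sp h)).card : ℝ) * ((Fintype.card K : ℝ) - 2) ^ (sp h).card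
          ≤ ((Ns H (insert e S \ sp h)).card : ℝ) * (x * γ) ^ (sp h).card := by
            apply mul_le_mul_of_nonneg_left hpow (Nat.cast_nonneg _)
        _ = x ^ (sp h).card * (γ * (γ ^ ((sp h).card - 1) *
              ((Ns H (insert e S \ sp h)).card : ℝ))) := by
            rw [mul_pow]
            obtain ⟨k, hk⟩ : ∃ k, (sp h).card = k + 1 := ⟨(sp h).card - 1, by omega⟩
            rw [hk]
            simp only [Nat.add_sub_cancel]
            ring
        _ ≤ _ := by
            apply mul_le_mul_of_nonneg_left _ (pow_nonneg hx.le _)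
            apply mul_le_mul_of_nonneg_left hg hγ0.le
    have hsum2 : ∑ h ∈ H.filter (fun h => h e ≠ 0 ∧ sp h ⊆ insert e S),
        ((Ns H (insert e S \ sp h)).card : ℝ) * ((Fintype.card K : ℝ) - 2) ^ (sp h).card
        ≤ δ * (γ * ((Ns H S).card : ℝ)) := by
      refine le_trans (Finset.sum_le_sum hterm) ?_
      rw [← Finset.sum_mul]
      apply mul_le_mul_of_nonneg_right _ (mul_nonneg hγ0.le (Nat.cast_nonneg _))
      refine le_trans ?_ (hsum e)
      apply Finset.sum_le_sum_of_subset_of_nonneg
      · intro h hh
        rw [mem_filter] at hh ⊢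
        exact ⟨hh.1, hh.2.1⟩
      · intro h _ _
        exact pow_nonneg hx.le _
    have hc0 : (0 : ℝ) ≤ ((Ns H S).card : ℝ) := Nat.cast_nonneg _
    have hfin : γ * ((Ns H S).card : ℝ) + δ * (γ * ((Ns H S).card : ℝ)) ≤
        ((Fintype.card K : ℝ) - 1) * ((Ns H S).card : ℝ) := by
      rw [hγ]
      have : (1 - δ) * ((Fintype.card K : ℝ) - 1) + δ * ((1 - δ) * ((Fintype.card K : ℝ) - 1))
        ≤ (Fintype.card K : ℝ) - 1 := by nlinarith [sq_nonneg δ]
      nlinarith [mul_le_mul_of_nonneg_right this hc0]
    linarith
  -- conclusion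
  have hall : ∀ S : Finset E, 0 < (Ns H S).card := by
    intro S
    induction S using Finset.induction_on with
    | empty =>
      rw [Finset.card_pos]
      refine ⟨fun _ => 0, ?_⟩
      rw [mem_Ns]
      refine ⟨by simp, by simp, ?_⟩
      intro h hH hs
      exfalso
      apply h0 h hH
      funext e
      by_contra hne
      exact absurd (hs (mem_sp.2 hne)) (Finset.notMem_empty e)
    | insert e S he ihS =>
      have := key S.card S rfl e he
      have h1 : (0 : ℝ) < ((Ns H S).card : ℝ) := by exact_mod_cast ihS
      have h2 : (0 : ℝ) < ((Ns H (insert e S)).card : ℝ) :=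
        lt_of_lt_of_le (mul_pos hγ0 h1) this
      exact_mod_cast h2
  obtain ⟨a, ha⟩ := Finset.card_pos.1 (hall univ)
  rw [mem_Ns] at ha
  refine ⟨a, fun e => ha.1 e (mem_univ e), ?_⟩
  intro h hH
  obtain ⟨e, he, hea⟩ := ha.2.2 h hH (Finset.subset_univ _)
  exact ⟨e, mem_sp.1 he, hea⟩

end Pool.Agent.FB9763h88
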